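import Pool.Agent.W_93b186_h34.All

/-!
# Symplectic billiards in convex polygons with at most three side directions: complete answer

Let `v` be a convex polygon whose sides have at most three directions.  It has at most six sides.

* If it is not a hexagon then it has property (AP).
* If it is a hexagon then, up to an affine map and a cyclic relabelling, it is the hexagon
  `hexV p q r t` with short sides `p, q, r > 0` and opposite long sides `p + t, q + t, r + t`,
  `t ≥ 0`; it is centrally symmetric exactly when `t = 0`.  Reduce the triple `(p, q, r)`: as long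
  as an entry exceeds `t` plus the sum of the other two, subtract this amount from it.  If `t > 0`
  this stops.  If it stops in the triple `y`, then (AP) holds if and only if one entry of `y` is
  larger than the sum of the other two, or the pairwise differences of the entries of `y` are
  commensurable, or `t = 0` and one entry of `y` is equal to the sum of the other two.  If it
  never stops (then `t = 0`, and `(p : q : r)` is a point of the Rauzy gasket), (AP) fails.
-/

namespace Pool.Agent.Results.MP_93b186_an.AtMostThreeDirections

open SympB SympH

theorem result :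
    (∀ (n : ℕ) (v : ZMod n → ℝ × ℝ), IsConvexPolygon v → AtMostThreeDirections v → n ≠ 6 →
      AP v) ∧
    (∀ v : ZMod 6 → ℝ × ℝ, IsConvexPolygon v → AtMostThreeDirections v →
      (∃ p q r t : ℝ, 0 < p ∧ 0 < q ∧ 0 < r ∧ 0 ≤ t ∧ AffinelyEquivalent v (hexV p q r t)) ∧
      ∀ p q r t : ℝ, 0 < p → 0 < q → 0 < r → 0 ≤ t → AffinelyEquivalent v (hexV p q r t) →
        (t = 0 ↔ CentrallySymmetric v) ∧
        (0 < t → ∃ y, Relation.ReflTransGen (RStep t) (p, q, r) y ∧ Stuck t y) ∧
        (∀ y, Relation.ReflTransGen (RStep t) (p, q, r) y → Stuck t y →
          (AP v ↔ (Long y ∨ Commens y ∨ (t = 0 ∧ SumEq y)))) ∧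
        ((¬ ∃ y, Relation.ReflTransGen (RStep t) (p, q, r) y ∧ Stuck t y) → ¬ AP v)) :=
  ⟨not_hexagons, hexagons_all⟩

end Pool.Agent.Results.MP_93b186_an.AtMostThreeDirections
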