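import Pool.Agent.W_93b186_h29.Capped

/-!
# Symplectic billiards in parallelograms with a cap

Let `v` be a convex polygon with at most six vertices, four consecutive vertices of which form a
parallelogram `v i, v (i+1), v (i+2), v (i+3)`, such that the remaining vertices `v (i+4)` and
`v (i-1)` are equal (pentagons) or span a side parallel to the side from `v (i+1)` to `v (i+2)`
(hexagons).  Then all symplectic billiard orbits defined for all times are periodic.  In
particular this holds for every convex pentagon with two parallel sides of equal length, and for
every hexagon which is the union of a parallelogram and a trapezoid with a common side.
-/

namespace Pool.Agent.Results.MP_93b186_an.CappedPolygons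

open SympB

theorem result (n : ℕ) (hn : n ≤ 6) (v : ZMod n → ℝ × ℝ) (hv : IsConvexPolygon v)
    (h : CappedParallelogram v) : AP v :=
  capped_polygons n hn v hv h

end Pool.Agent.Results.MP_93b186_an.CappedPolygons
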