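import Pool.Agent.W_93b186_h44.Region

/-!
# Symplectic billiards in quadrilaterals

A convex quadrilateral which is not a trapezoid is, up to an affine map and a cyclic relabelling,
`quadV s t`, with vertices `(0,0), (1,0), (s,t), (0,1)` and `s, t > 1`.  If all its symplectic
billiard orbits defined for all times are periodic, then the pair `(min s t, max s t)` lies in the
explicit set `InK`: `s < 5`, `3 ≤ t`, `2 + 1/(s-1) ≤ t < s² + 9/2 + 1/(s-1)`.
-/

namespace Pool.Agent.Results.MP_93b186_an.Quadrilaterals

open SympB

theorem result (v : ZMod 4 → ℝ × ℝ) (hv : IsConvexPolygon v) (hap : AP v) :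
    IsTrapezoid v ∨ ∃ s t : ℝ, 1 < s ∧ 1 < t ∧ AffinelyEquivalent v (quadV s t) ∧
      InK (min s t) (max s t) :=
  main_quadrilaterals SympB.Quad.covered v hv hap

end Pool.Agent.Results.MP_93b186_an.Quadrilaterals
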