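import Pool.Agent.W_93b186_h44.Region

/-!
# Polygons near quadrilaterals, with any number of sides

Let `1 < s ≤ t` with `(s,t)` outside the set `InK`.  There is `ε ∈ (0, 1/2)` such that every convex
polygon, with any number of sides, whose boundary sides contain the four sides of the
quadrilateral `(0,0), (1,0), (s,t), (0,1)` with end pieces of relative length `ε` removed, has a
symplectic billiard orbit which is defined for all times and is not periodic.
-/

namespace Pool.Agent.Results.MP_93b186_an.TrimmedPolygons

open SympB

theorem result (s t : ℝ) (hs : 1 < s) (hst : s ≤ t) (hK : ¬ InK s t) :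
    ∃ ε : ℝ, 0 < ε ∧ ε < 1 / 2 ∧ ∀ (n : ℕ) (v : ZMod n → ℝ × ℝ), IsConvexPolygon v →
      ContainsTrimmedSides s t ε v → ¬ AP v :=
  main_polygons SympB.Quad.covered s t hs hst hK

end Pool.Agent.Results.MP_93b186_an.TrimmedPolygons
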